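import Mathlib

set_option autoImplicit false
set_option linter.unusedSectionVars false

/-!
Sets of vertices maximising `|X| - 2 |N(X)|`: the least and the largest of them, and their
behaviour under the deletion of a vertex.
-/

namespace Pool.Agent.TH87.RVD

open Finset Classical

variable {V : Type} [Fintype V]

/-- neighbours in `S` of the set `X` -/
noncomputable def nb (G : SimpleGraph V) (S X : Finset V) : Finset V :=
  S.filter (fun y => ∃ x ∈ X, G.Adj x y)

theorem mem_nb (G : SimpleGraph V) (S X : Finset V) (y : V) :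
    y ∈ nb G S X ↔ y ∈ S ∧ ∃ x ∈ X, G.Adj x y := by
  rw [nb, mem_filter]

theorem nb_union (G : SimpleGraph V) (S X Y : Finset V) : nb G S (X ∪ Y) = nb G S X ∪ nb G S Y := by
  ext y
  simp only [mem_nb, mem_union]
  constructor
  · rintro ⟨h, x, hx | hx, hxy⟩
    · exact Or.inl ⟨h, x, hx, hxy⟩
    · exact Or.inr ⟨h, x, hx, hxy⟩
  · rintro (⟨h, x, hx, hxy⟩ | ⟨h, x, hx, hxy⟩)
    · exact ⟨h, x, Or.inl hx, hxy⟩
    · exact ⟨h, x, Or.inr hx, hxy⟩

theorem nb_mono (G : SimpleGraph V) (S : Finset V) {X Y : Finset V} (h : X ⊆ Y) :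
    nb G S X ⊆ nb G S Y := by
  intro y hy
  rw [mem_nb] at hy ⊢
  obtain ⟨h1, x, hx, hxy⟩ := hy
  exact ⟨h1, x, h hx, hxy⟩

theorem nb_inter (G : SimpleGraph V) (S X Y : Finset V) : nb G S (X ∩ Y) ⊆ nb G S X ∩ nb G S Y :=
  subset_inter (nb_mono G S inter_subset_left) (nb_mono G S inter_subset_right)

/-- the value `|X| - 2 |N(X)|` -/
noncomputable def val (G : SimpleGraph V) (S X : Finset V) : ℤ :=
  (X.card : ℤ) - 2 * ((nb G S X).card : ℤ)

theorem val_super (G : SimpleGraph V) (S X Y : Finset V) :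
    val G S X + val G S Y ≤ val G S (X ∪ Y) + val G S (X ∩ Y) := by
  unfold val
  have h1 := card_union_add_card_inter X Y
  have h2 := card_union_add_card_inter (nb G S X) (nb G S Y)
  have h3 := card_le_card (nb_inter G S X Y)
  rw [← nb_union] at h2
  have h4 : ((X ∪ Y).card : ℤ) + (X ∩ Y).card = X.card + Y.card := by exact_mod_cast h1
  have h5 : ((nb G S (X ∪ Y)).card : ℤ) + (nb G S X ∩ nb G S Y).card =
    (nb G S X).card + (nb G S Y).card := by exact_mod_cast h2
  have h6 : ((nb G S (X ∩ Y)).card : ℤ) ≤ (nb G S X ∩ nb G S Y).card := by exact_mod_cast h3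
  linarith

/-- `X` maximises the value among the subsets of `S` -/
def IsMx (G : SimpleGraph V) (S X : Finset V) : Prop :=
  X ⊆ S ∧ ∀ Y, Y ⊆ S → val G S Y ≤ val G S X

theorem exists_mx (G : SimpleGraph V) (S : Finset V) : ∃ X, IsMx G S X := by
  obtain ⟨X, hX, hmax⟩ := exists_max_image S.powerset (val G S) ⟨∅, by simp⟩
  exact ⟨X, mem_powerset.mp hX, fun Y hY => hmax Y (mem_powerset.mpr hY)⟩

theorem mx_eq {G : SimpleGraph V} {S X Y : Finset V} (hX : IsMx G S X) (hY : IsMx G S Y) :
    val G S X = val G S Y := le_antisymm (hY.2 X hX.1) (hX.2 Y hY.1)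

theorem mx_of_ge {G : SimpleGraph V} {S X Y : Finset V} (hX : IsMx G S X) (hY : Y ⊆ S)
    (h : val G S X ≤ val G S Y) : IsMx G S Y :=
  ⟨hY, fun Z hZ => (hX.2 Z hZ).trans h⟩

theorem mx_union {G : SimpleGraph V} {S X Y : Finset V} (hX : IsMx G S X) (hY : IsMx G S Y) :
    IsMx G S (X ∪ Y) ∧ IsMx G S (X ∩ Y) := by
  have h1 := val_super G S X Y
  have hU : X ∪ Y ⊆ S := union_subset hX.1 hY.1
  have hI : X ∩ Y ⊆ S := inter_subset_left.trans hX.1
  have h2 := hX.2 _ hU
  have h3 := hX.2 _ hI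
  have h4 := mx_eq hX hY
  exact ⟨mx_of_ge hX hU (by linarith), mx_of_ge hX hI (by linarith)⟩

/-- the largest maximising set -/
noncomputable def Kp (G : SimpleGraph V) (S : Finset V) : Finset V :=
  S.filter (fun x => ∃ X, IsMx G S X ∧ x ∈ X)

/-- the least maximising set -/
noncomputable def Km (G : SimpleGraph V) (S : Finset V) : Finset V :=
  S.filter (fun x => ∀ X, IsMx G S X → x ∈ X)

theorem sub_kp {G : SimpleGraph V} {S X : Finset V} (hX : IsMx G S X) : X ⊆ Kp G S := fun _ hx =>
  mem_filter.mpr ⟨hX.1 hx, X, hX, hx⟩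

theorem km_sub {G : SimpleGraph V} {S X : Finset V} (hX : IsMx G S X) : Km G S ⊆ X := fun _ hx =>
  (mem_filter.mp hx).2 X hX

theorem kp_mx (G : SimpleGraph V) (S : Finset V) : IsMx G S (Kp G S) := by
  obtain ⟨X0, hX0⟩ := exists_mx G S
  obtain ⟨X, hX, hmax⟩ := exists_max_image (S.powerset.filter (fun X => IsMx G S X)) card
    ⟨X0, mem_filter.mpr ⟨mem_powerset.mpr hX0.1, hX0⟩⟩
  have hX' := (mem_filter.mp hX).2
  have : Kp G S = X := by
    apply subset_antisymm
    · intro x hx
      obtain ⟨_, Y, hY, hxY⟩ := mem_filter.mp hx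
      have h1 := (mx_union hX' hY).1
      have h2 := hmax (X ∪ Y) (mem_filter.mpr ⟨mem_powerset.mpr h1.1, h1⟩)
      have h3 : X = X ∪ Y := eq_of_subset_of_card_le subset_union_left h2
      rw [h3]
      exact mem_union_right _ hxY
    · exact sub_kp hX'
  rw [this]
  exact hX'

theorem km_mx (G : SimpleGraph V) (S : Finset V) : IsMx G S (Km G S) := by
  obtain ⟨X0, hX0⟩ := exists_mx G S
  obtain ⟨X, hX, hmin⟩ := exists_min_image (S.powerset.filter (fun X => IsMx G S X)) card
    ⟨X0, mem_filter.mpr ⟨mem_powerset.mpr hX0.1, hX0⟩⟩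
  have hX' := (mem_filter.mp hX).2
  have : Km G S = X := by
    apply subset_antisymm
    · exact km_sub hX'
    · intro x hx
      refine mem_filter.mpr ⟨hX'.1 hx, fun Y hY => ?_⟩
      have h1 := (mx_union hX' hY).2
      have h2 := hmin (X ∩ Y) (mem_filter.mpr ⟨mem_powerset.mpr h1.1, h1⟩)
      have h3 : X ∩ Y = X := eq_of_subset_of_card_le inter_subset_left h2
      rw [← h3] at hx
      exact (mem_inter.mp hx).2
  rw [this]
  exact hX'

/-- the maximum -/
noncomputable def mu (G : SimpleGraph V) (S : Finset V) : ℤ := val G S (Kp G S)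

theorem val_le_mu (G : SimpleGraph V) (S X : Finset V) (hX : X ⊆ S) : val G S X ≤ mu G S :=
  (kp_mx G S).2 X hX

theorem mx_mu {G : SimpleGraph V} {S X : Finset V} (hX : IsMx G S X) : val G S X = mu G S :=
  mx_eq hX (kp_mx G S)

theorem mx_of_mu {G : SimpleGraph V} {S X : Finset V} (hX : X ⊆ S) (h : mu G S ≤ val G S X) :
    IsMx G S X := mx_of_ge (kp_mx G S) hX h

theorem mx_indep {G : SimpleGraph V} {S X : Finset V} (hX : IsMx G S X) {x y : V} (hx : x ∈ X)
    (hy : y ∈ X) : ¬ G.Adj x y := by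
  intro hxy
  have hY : X \ nb G S X ⊆ S := sdiff_subset.trans hX.1
  have h1 := hX.2 _ hY
  have h2 : nb G S (X \ nb G S X) ⊆ nb G S X \ X := by
    intro z hz
    rw [mem_nb] at hz
    obtain ⟨hzS, u, hu, huz⟩ := hz
    rw [mem_sdiff] at hu ⊢
    refine ⟨(mem_nb _ _ _ _).mpr ⟨hzS, u, hu.1, huz⟩, fun hzX => hu.2 ?_⟩
    exact (mem_nb _ _ _ _).mpr ⟨hX.1 hu.1, z, hzX, huz.symm⟩
  have h3 := card_le_card h2
  have h4 := card_sdiff_add_card_inter X (nb G S X)
  have h5 := card_sdiff_add_card_inter (nb G S X) X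
  rw [inter_comm] at h5
  have h6 : y ∈ X ∩ nb G S X := mem_inter.mpr ⟨hy, (mem_nb _ _ _ _).mpr ⟨hX.1 hy, x, hx, hxy⟩⟩
  have h7 : 0 < (X ∩ nb G S X).card := card_pos.mpr ⟨y, h6⟩
  unfold val at h1
  omega

theorem nb_erase (G : SimpleGraph V) (v : V) (X : Finset V) :
    nb G (univ.erase v) X = (nb G univ X).erase v := by
  ext y
  simp only [mem_nb, mem_erase, mem_univ, true_and, and_true]

theorem val_erase_ge (G : SimpleGraph V) (v : V) (X : Finset V) :
    val G univ X ≤ val G (univ.erase v) X := by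
  unfold val
  rw [nb_erase]
  have := card_le_card (erase_subset v (nb G univ X))
  omega

theorem val_erase_le (G : SimpleGraph V) (v : V) (X : Finset V) :
    val G (univ.erase v) X ≤ val G univ X + 2 := by
  unfold val
  rw [nb_erase]
  have := pred_card_le_card_erase (s := nb G univ X) (a := v)
  omega

theorem val_erase_eq (G : SimpleGraph V) (v : V) (X : Finset V) (h : v ∉ nb G univ X) :
    val G (univ.erase v) X = val G univ X := by
  unfold val
  rw [nb_erase, erase_eq_of_notMem h]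

theorem km_not_nb (G : SimpleGraph V) (S : Finset V) {x : V} (hx : x ∈ Km G S) :
    x ∉ nb G S (Km G S) := by
  intro h
  obtain ⟨_, y, hy, hyx⟩ := (mem_nb _ _ _ _).mp h
  exact mx_indep (km_mx G S) hy hx hyx

theorem strict_hall (G : SimpleGraph V) (R : Finset V) (hR : R ⊆ nb G univ (Km G univ))
    (hne : R.Nonempty) :
    2 * R.card + 1 ≤ ((Km G univ).filter (fun k => ∃ r ∈ R, G.Adj k r)).card := by
  set M := Km G univ with hM
  set A := nb G univ M with hA
  set T := M.filter (fun k => ∃ r ∈ R, G.Adj k r) with hT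
  have hMx : IsMx G univ M := km_mx G univ
  have h1 : nb G univ (M \ T) ⊆ A \ R := by
    intro y hy
    rw [mem_nb] at hy
    obtain ⟨_, x, hx, hxy⟩ := hy
    rw [mem_sdiff] at hx ⊢
    refine ⟨(mem_nb _ _ _ _).mpr ⟨mem_univ _, x, hx.1, hxy⟩, fun hyR => hx.2 ?_⟩
    exact mem_filter.mpr ⟨hx.1, y, hyR, hxy⟩
  have h2 := card_le_card h1
  have h3 : (A \ R).card = A.card - R.card := card_sdiff_of_subset hR
  have h4 : R.card ≤ A.card := card_le_card hR
  have hTM : T ⊆ M := filter_subset _ _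
  have h5 : (M \ T).card = M.card - T.card := card_sdiff_of_subset hTM
  have h6 : T.card ≤ M.card := card_le_card hTM
  obtain ⟨r, hr⟩ := hne
  obtain ⟨_, k, hk, hkr⟩ := (mem_nb _ _ _ _).mp (hR hr)
  have h7 : ¬ IsMx G univ (M \ T) := by
    intro h
    have h8 := km_sub h hk
    rw [mem_sdiff] at h8
    exact h8.2 (mem_filter.mpr ⟨hk, r, hr, hkr⟩)
  have h8 : val G univ (M \ T) < val G univ M := by
    by_contra h
    push Not at h
    exact h7 (mx_of_ge hMx (subset_univ _) h)
  unfold val at h8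
  rw [← hA] at h8
  omega

/-- deletion of a vertex of the least maximising set -/
theorem card_mx (G : SimpleGraph V) (v : V) (hv : v ∈ Km G univ) (X : Finset V)
    (hX : IsMx G (univ.erase v) X) :
    val G (univ.erase v) X = mu G univ - 1 ∧ X ⊆ Kp G univ ∧ v ∉ X := by
  set M := Km G univ with hM
  set A := nb G univ M with hA
  have hMx : IsMx G univ M := km_mx G univ
  have hmu : val G univ M = mu G univ := mx_mu hMx
  have hvX : v ∉ X := fun h => (mem_erase.mp (hX.1 h)).1 rfl
  have hMA : ∀ x ∈ M, x ∉ A := fun x hx => km_not_nb G univ hx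
  have hadjA : ∀ x k, k ∈ M → G.Adj x k → x ∈ A := fun x k hk h =>
    (mem_nb _ _ _ _).mpr ⟨mem_univ _, k, hk, h.symm⟩
  -- lower bound
  have hlow : mu G univ - 1 ≤ val G (univ.erase v) X := by
    have h1 : M.erase v ⊆ univ.erase v := erase_subset_erase v (subset_univ _)
    refine le_trans ?_ (hX.2 _ h1)
    have h2 : nb G (univ.erase v) (M.erase v) ⊆ A := by
      rw [nb_erase]
      exact (erase_subset _ _).trans (nb_mono G univ (erase_subset _ _))
    have h3 := card_le_card h2
    have h4 := card_erase_of_mem hv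
    have h5 : 0 < M.card := card_pos.mpr ⟨v, hv⟩
    rw [← hmu]
    unfold val
    rw [← hA, h4]
    omega
  have hXi : ∀ x ∈ X, ∀ y ∈ X, ¬ G.Adj x y := fun x hx y hy => mx_indep hX hx hy
  -- no vertex of `X` in `A`
  have hXA : X ∩ A = ∅ := by
    set XO := X \ A with hXO
    set NO := nb G univ XO with hNO
    set R := A \ NO with hR
    have hXAR : X ∩ A ⊆ R := by
      intro y hy
      rw [mem_inter] at hy
      rw [hR, mem_sdiff]
      refine ⟨hy.2, fun h => ?_⟩
      obtain ⟨_, x, hx, hxy⟩ := (mem_nb _ _ _ _).mp h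
      exact hXi x (mem_sdiff.mp hx).1 y hy.1 hxy
    rcases R.eq_empty_or_nonempty with hRe | hRn
    · rw [hRe] at hXAR
      exact subset_empty.mp hXAR
    · -- counting
      set T := M.filter (fun k => k ≠ v ∧ ∃ r ∈ X ∩ A, G.Adj k r) with hT
      have hTcard : 2 * (X ∩ A).card ≤ T.card := by
        rcases (X ∩ A).eq_empty_or_nonempty with h0 | h0
        · rw [h0]; simp
        · have h1 : 2 * (X ∩ A).card + 1 ≤ (M.filter (fun k => ∃ r ∈ X ∩ A, G.Adj k r)).card :=
            strict_hall G (X ∩ A) inter_subset_right h0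
          have h2 : (M.filter (fun k => ∃ r ∈ X ∩ A, G.Adj k r)) ⊆ insert v T := by
            intro k hk
            rw [mem_filter] at hk
            rw [mem_insert]
            by_cases hkv : k = v
            · exact Or.inl hkv
            · exact Or.inr (mem_filter.mpr ⟨hk.1, hkv, hk.2⟩)
          have h3 := (card_le_card h2).trans (card_insert_le _ _)
          omega
      have hNT : NO ∪ T ⊆ nb G (univ.erase v) X := by
        rw [nb_erase]
        intro y hy
        rw [mem_union] at hy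
        rw [mem_erase]
        rcases hy with hy | hy
        · obtain ⟨_, x, hx, hxy⟩ := (mem_nb _ _ _ _).mp hy
          rw [hXO, mem_sdiff] at hx
          refine ⟨?_, (mem_nb _ _ _ _).mpr ⟨mem_univ _, x, hx.1, hxy⟩⟩
          rintro rfl
          exact hx.2 (hadjA x y hv hxy)
        · rw [hT, mem_filter] at hy
          obtain ⟨_, hyv, r, hr, hyr⟩ := hy
          exact ⟨hyv, (mem_nb _ _ _ _).mpr ⟨mem_univ _, r, (mem_inter.mp hr).1, hyr.symm⟩⟩
      have hdisj : Disjoint NO T := by
        rw [disjoint_left]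
        intro y hy hyT
        obtain ⟨_, x, hx, hxy⟩ := (mem_nb _ _ _ _).mp hy
        rw [hXO, mem_sdiff] at hx
        exact hx.2 (hadjA x y (mem_filter.mp hyT).1 hxy)
      have h1 := card_le_card hNT
      rw [card_union_of_disjoint hdisj] at h1
      -- the vertices of `M` adjacent to `R`
      have h2 : 2 * R.card + 1 ≤ (M.filter (fun k => ∃ r ∈ R, G.Adj k r)).card :=
        strict_hall G R sdiff_subset hRn
      have h3 : (M.filter (fun k => ∃ r ∈ R, G.Adj k r)) ⊆ M \ X := by
        intro k hk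
        rw [mem_filter] at hk
        rw [mem_sdiff]
        refine ⟨hk.1, fun hkX => ?_⟩
        obtain ⟨r, hr, hkr⟩ := hk.2
        rw [hR, mem_sdiff] at hr
        apply hr.2
        exact (mem_nb _ _ _ _).mpr ⟨mem_univ _, k, mem_sdiff.mpr ⟨hkX, hMA k hk.1⟩, hkr⟩
      have h4 := card_le_card h3
      have h5 := card_sdiff_add_card_inter M X
      -- cardinalities
      have h6 : XO.card + (X ∩ A).card = X.card := card_sdiff_add_card_inter X A
      have h7 := card_sdiff_add_card_inter XO M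
      have h8 : XO ∩ M ⊆ M ∩ X := by
        intro k hk
        rw [mem_inter] at hk ⊢
        exact ⟨hk.2, (mem_sdiff.mp hk.1).1⟩
      have h9 := card_le_card h8
      have h10 : (XO ∪ M).card = (XO \ M).card + M.card := by
        rw [← sdiff_union_self_eq_union, card_union_of_disjoint sdiff_disjoint]
      have h11 : (NO ∪ A).card = R.card + NO.card := by
        rw [union_comm, ← sdiff_union_self_eq_union, card_union_of_disjoint sdiff_disjoint]
      have h12 : val G univ (XO ∪ M) ≤ mu G univ := val_le_mu G univ _ (subset_univ _)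
      unfold val at h12 hlow
      rw [nb_union, ← hNO, ← hA] at h12
      rw [← card_eq_zero]
      omega
  have hvN : v ∉ nb G univ X := by
    intro h
    obtain ⟨_, x, hx, hxv⟩ := (mem_nb _ _ _ _).mp h
    have : x ∈ X ∩ A := mem_inter.mpr ⟨hx, hadjA x v hv hxv⟩
    rw [hXA] at this
    exact notMem_empty _ this
  have hval := val_erase_eq G v X hvN
  have hnot : ∀ Y : Finset V, v ∉ Y → val G univ Y ≤ mu G univ - 1 := by
    intro Y hY
    have h1 : ¬ IsMx G univ Y := fun h => hY (km_sub h hv)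
    by_contra h2
    push Not at h2
    exact h1 (mx_of_mu (subset_univ _) (by linarith [Int.sub_one_lt_iff.mp h2]))
  have hle := hnot X hvX
  refine ⟨by rw [hval] at hlow ⊢; omega, ?_, hvX⟩
  have h1 := val_super G univ X M
  have h2 := hnot (X ∩ M) (fun h => hvX (mem_inter.mp h).1)
  have h3 : IsMx G univ (X ∪ M) := by
    apply mx_of_mu (subset_univ _)
    rw [hval] at hlow
    omega
  exact subset_union_left.trans (sub_kp h3)

theorem mu_card_mem (G : SimpleGraph V) (v : V) (hv : v ∈ Km G univ) :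
    mu G (univ.erase v) = mu G univ - 1 :=
  (card_mx G v hv _ (kp_mx G _)).1

theorem mu_card_not (G : SimpleGraph V) (v : V) (hv : v ∉ Km G univ) :
    mu G univ ≤ mu G (univ.erase v) := by
  have h1 : Km G univ ⊆ univ.erase v := by
    intro x hx
    exact mem_erase.mpr ⟨fun h => hv (h ▸ hx), mem_univ _⟩
  have h2 := val_le_mu G _ _ h1
  have h3 := val_erase_ge G v (Km G univ)
  have h4 := mx_mu (km_mx G univ)
  linarith

theorem mu_card_le (G : SimpleGraph V) (v : V) : mu G (univ.erase v) ≤ mu G univ + 2 := by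
  have h1 := val_erase_le G v (Kp G (univ.erase v))
  have h2 := val_le_mu G univ (Kp G (univ.erase v)) (subset_univ _)
  have h3 : mu G (univ.erase v) = val G (univ.erase v) (Kp G (univ.erase v)) := rfl
  linarith

theorem kp_card (G : SimpleGraph V) (v : V) (hv : v ∈ Km G univ) :
    Kp G (univ.erase v) = (Kp G univ).erase v := by
  have hvK : v ∈ Kp G univ := km_sub (kp_mx G univ) hv
  apply subset_antisymm
  · have h := card_mx G v hv _ (kp_mx G (univ.erase v))
    intro x hx
    exact mem_erase.mpr ⟨fun e => h.2.2 (e ▸ hx), h.2.1 hx⟩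
  · apply sub_kp
    apply mx_of_mu (erase_subset_erase v (subset_univ _))
    rw [mu_card_mem G v hv]
    have h2 : nb G (univ.erase v) ((Kp G univ).erase v) ⊆ nb G univ (Kp G univ) := by
      rw [nb_erase]
      exact (erase_subset _ _).trans (nb_mono G univ (erase_subset _ _))
    have h3 := card_le_card h2
    have h4 := card_erase_of_mem hvK
    have h5 : 0 < (Kp G univ).card := card_pos.mpr ⟨v, hvK⟩
    have h6 : mu G univ = val G univ (Kp G univ) := rfl
    rw [h6]
    unfold val
    rw [h4]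
    omega

/-- transport of the value -/
theorem val_map (G H : SimpleGraph V) (σ : Equiv.Perm V) (S S' : Finset V)
    (hS : ∀ x, σ x ∈ S' ↔ x ∈ S) (hadj : ∀ x y, x ∈ S → y ∈ S → (H.Adj (σ x) (σ y) ↔ G.Adj x y))
    (X : Finset V) (hX : X ⊆ S) : val H S' (X.map σ.toEmbedding) = val G S X := by
  unfold val
  have : nb H S' (X.map σ.toEmbedding) = (nb G S X).map σ.toEmbedding := by
    ext y
    obtain ⟨z, rfl⟩ := σ.surjective y
    rw [mem_nb, hS]
    have h1 : σ z ∈ (nb G S X).map σ.toEmbedding ↔ z ∈ nb G S X := by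
      rw [mem_map_equiv, Equiv.symm_apply_apply]
    rw [h1, mem_nb]
    constructor
    · rintro ⟨hz, w, hw, hwz⟩
      obtain ⟨x, hx, rfl⟩ := mem_map.mp hw
      exact ⟨hz, x, hx, (hadj x z (hX hx) hz).mp hwz⟩
    · rintro ⟨hz, x, hx, hxz⟩
      exact ⟨hz, σ x, mem_map.mpr ⟨x, hx, rfl⟩, (hadj x z (hX hx) hz).mpr hxz⟩
  rw [this, card_map, card_map]

theorem mx_map (G H : SimpleGraph V) (σ : Equiv.Perm V) (S S' : Finset V)
    (hS : ∀ x, σ x ∈ S' ↔ x ∈ S) (hadj : ∀ x y, x ∈ S → y ∈ S → (H.Adj (σ x) (σ y) ↔ G.Adj x y))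
    (X : Finset V) (hX : IsMx G S X) : IsMx H S' (X.map σ.toEmbedding) := by
  constructor
  · intro y hy
    obtain ⟨x, hx, rfl⟩ := mem_map.mp hy
    exact (hS x).mpr (hX.1 hx)
  · intro Y hY
    have h1 : Y = (Y.map σ.symm.toEmbedding).map σ.toEmbedding := by
      ext y
      simp only [mem_map_equiv, Equiv.symm_symm, Equiv.apply_symm_apply]
    have h2 : Y.map σ.symm.toEmbedding ⊆ S := by
      intro y hy
      obtain ⟨x, hx, rfl⟩ := mem_map.mp hy
      show σ.symm x ∈ S
      rw [← hS, Equiv.apply_symm_apply]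
      exact hY hx
    rw [h1, val_map G H σ S S' hS hadj _ h2, val_map G H σ S S' hS hadj X hX.1]
    exact hX.2 _ h2

theorem kp_map (G H : SimpleGraph V) (σ : Equiv.Perm V) (S S' : Finset V)
    (hS : ∀ x, σ x ∈ S' ↔ x ∈ S) (hadj : ∀ x y, x ∈ S → y ∈ S → (H.Adj (σ x) (σ y) ↔ G.Adj x y)) :
    (∀ x, σ x ∈ Kp H S' ↔ x ∈ Kp G S) ∧ mu H S' = mu G S := by
  have hS2 : ∀ x, σ.symm x ∈ S ↔ x ∈ S' := fun x => by rw [← hS, Equiv.apply_symm_apply]
  have hadj2 : ∀ x y, x ∈ S' → y ∈ S' → (G.Adj (σ.symm x) (σ.symm y) ↔ H.Adj x y) := by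
    intro x y hx hy
    rw [← hadj _ _ ((hS2 x).mpr hx) ((hS2 y).mpr hy), Equiv.apply_symm_apply,
      Equiv.apply_symm_apply]
  have h1 := mx_map G H σ S S' hS hadj _ (kp_mx G S)
  have h2 := mx_map H G σ.symm S' S hS2 hadj2 _ (kp_mx H S')
  constructor
  · intro x
    constructor
    · intro hx
      have h3 := sub_kp h2
      apply h3
      rw [mem_map_equiv, Equiv.symm_symm]
      exact hx
    · intro hx
      apply sub_kp h1
      rw [mem_map_equiv, Equiv.symm_apply_apply]
      exact hx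
  · rw [← mx_mu h1, val_map G H σ S S' hS hadj _ (kp_mx G S).1]
    rfl

end Pool.Agent.TH87.RVD
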