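import Pool.Agent.TH87.RVD.Crit
import Pool.Agent.TH87.RVC.Multi

set_option autoImplicit false
set_option linter.unusedSectionVars false

/-!
The Hall condition for multisets of subsets of a finite set, and for the neighbourhoods of the
vertices of the largest maximising set.
-/

namespace Pool.Agent.TH87.RVD

open Finset Classical
open Pool.Agent.TH87.RVC (del)

section hall

variable {B : Type} [Fintype B]

/-- every set `S` is met by at least `2 |S|` members of the multiset `c` -/
def UU (c : Finset B → ℕ) : Prop :=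
  ∀ S : Finset B, 2 * S.card ≤ ∑ T ∈ univ.filter (fun T : Finset B => ∃ b ∈ S, b ∈ T), c T

theorem UU_mono (c c' : Finset B → ℕ) (h : ∀ x, c x ≤ c' x) (hc : UU c) : UU c' := fun S =>
  (hc S).trans (sum_le_sum (fun T _ => h T))

theorem UU_inv (σ : Equiv.Perm B) (ψ : Equiv.Perm (Finset B))
    (hψ : ∀ T b, σ b ∈ ψ T ↔ b ∈ T) (c : Finset B → ℕ) (hc : UU (fun x => c (ψ x))) : UU c := by
  intro S
  have h1 := hc (S.map σ.symm.toEmbedding)
  rw [card_map] at h1
  refine h1.trans (le_of_eq ?_)
  apply sum_bij (fun T _ => ψ T)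
  · intro T hT
    simp only [mem_filter, mem_univ, true_and] at hT ⊢
    obtain ⟨b, hb, hbT⟩ := hT
    rw [mem_map_equiv, Equiv.symm_symm] at hb
    exact ⟨σ b, hb, (hψ T b).mpr hbT⟩
  · intro T _ T' _ h
    exact ψ.injective h
  · intro T hT
    simp only [mem_filter, mem_univ, true_and] at hT
    obtain ⟨T0, rfl⟩ := ψ.surjective T
    obtain ⟨b, hb, hbT⟩ := hT
    refine ⟨T0, ?_, rfl⟩
    simp only [mem_filter, mem_univ, true_and]
    refine ⟨σ.symm b, ?_, ?_⟩
    · rw [mem_map_equiv, Equiv.symm_symm, Equiv.apply_symm_apply]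
      exact hb
    · rw [← hψ T0, Equiv.apply_symm_apply]
      exact hbT
  · intro T _
    rfl

theorem exists_S0 (w : Finset B → ℕ) (hw : UU w) : ∃ S0 : Finset (Finset B),
    S0.card ≤ 2 * Fintype.card B ∧ ∀ c : Finset B → ℕ, (∀ x ∈ S0, w x ≤ c x) → UU c := by
  let t : B × Fin 2 → Finset (Σ T : Finset B, Fin (w T)) := fun p =>
    univ.filter (fun z => p.1 ∈ z.1)
  have hcount : ∀ (P : Finset B → Prop) [DecidablePred P]
      [DecidablePred (fun z : Σ T : Finset B, Fin (w T) => P z.1)],
      (univ.filter (fun z : Σ T : Finset B, Fin (w T) => P z.1)).card =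
        ∑ T ∈ univ.filter P, w T := by
    intro P _ _
    have : (univ.filter (fun z : Σ T : Finset B, Fin (w T) => P z.1)) =
        (univ.filter P).sigma (fun T => (univ : Finset (Fin (w T)))) := by
      ext z
      simp
    rw [this, card_sigma]
    simp
  have hhall : ∀ s : Finset (B × Fin 2), s.card ≤ (s.biUnion t).card := by
    intro s
    have h1 : s.card ≤ 2 * (s.image Prod.fst).card := by
      calc s.card ≤ ((s.image Prod.fst) ×ˢ (univ : Finset (Fin 2))).card := by
            apply card_le_card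
            intro p hp
            rw [mem_product]
            exact ⟨mem_image_of_mem _ hp, mem_univ _⟩
        _ = 2 * (s.image Prod.fst).card := by
            rw [card_product, card_univ, Fintype.card_fin, mul_comm]
    refine h1.trans ((hw _).trans (le_of_eq ?_))
    rw [← hcount (fun T => ∃ b ∈ s.image Prod.fst, b ∈ T)]
    congr 1
    ext z
    simp only [mem_filter, mem_univ, true_and, mem_biUnion, mem_image, t]
    constructor
    · rintro ⟨b, ⟨p, hp, rfl⟩, hb⟩
      exact ⟨p, hp, hb⟩
    · rintro ⟨p, hp, hb⟩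
      exact ⟨p.1, ⟨p, hp, rfl⟩, hb⟩
  obtain ⟨f, hf, hft⟩ := (Finset.all_card_le_biUnion_card_iff_exists_injective t).mp hhall
  have hft' : ∀ p, p.1 ∈ (f p).1 := fun p => by
    have := hft p
    simp only [t, mem_filter, mem_univ, true_and] at this
    exact this
  refine ⟨univ.image (fun p => (f p).1), ?_, ?_⟩
  · refine card_image_le.trans (le_of_eq ?_)
    rw [card_univ, Fintype.card_prod, Fintype.card_fin, mul_comm]
  · intro c hc S
    calc 2 * S.card = (S ×ˢ (univ : Finset (Fin 2))).card := by
          rw [card_product, card_univ, Fintype.card_fin, mul_comm]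
      _ ≤ (univ.filter (fun z : Σ T : Finset B, Fin (w T) =>
            z.1 ∈ univ.image (fun p => (f p).1) ∧ ∃ b ∈ S, b ∈ z.1)).card := by
          apply card_le_card_of_injOn f
          · intro p hp
            have hp' := (mem_product.mp hp).1
            simp only [coe_filter, mem_univ, true_and, Set.mem_ofPred_eq]
            exact ⟨mem_image_of_mem _ (mem_univ _), p.1, hp', hft' p⟩
          · exact hf.injOn
      _ = ∑ T ∈ univ.filter (fun T : Finset B =>
            T ∈ univ.image (fun p => (f p).1) ∧ ∃ b ∈ S, b ∈ T), w T :=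
          hcount (fun T => T ∈ univ.image (fun p => (f p).1) ∧ ∃ b ∈ S, b ∈ T)
      _ ≤ ∑ T ∈ univ.filter (fun T : Finset B =>
            T ∈ univ.image (fun p => (f p).1) ∧ ∃ b ∈ S, b ∈ T), c T := by
          apply sum_le_sum
          intro T hT
          exact hc T (mem_filter.mp hT).2.1
      _ ≤ ∑ T ∈ univ.filter (fun T : Finset B => ∃ b ∈ S, b ∈ T), c T := by
          apply sum_le_sum_of_subset
          intro T hT
          rw [mem_filter] at hT ⊢
          exact ⟨hT.1, hT.2.2⟩

end hall

section graph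

variable {V B : Type} [Fintype V] [Fintype B] (L : SimpleGraph V) (e : B → V)

/-- the neighbours of `u`, seen in `B` -/
noncomputable def NB (u : V) : Finset B := univ.filter (fun b => L.Adj u (e b))

/-- the number of vertices of the largest maximising set of each type -/
noncomputable def wt (T : Finset B) : ℕ := ((Kp L univ).filter (fun u => NB L e u = T)).card

theorem mem_NB (u : V) (b : B) : b ∈ NB L e u ↔ L.Adj u (e b) := by simp [NB]

theorem sum_wt (P : Finset B → Prop) [DecidablePred P]
    [DecidablePred (fun u => P (NB L e u))] :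
    ∑ T ∈ univ.filter P, wt L e T = ((Kp L univ).filter (fun u => P (NB L e u))).card := by
  rw [card_eq_sum_card_fiberwise (f := NB L e) (s := (Kp L univ).filter (fun u => P (NB L e u)))
    (t := univ.filter P)]
  · apply sum_congr rfl
    intro T hT
    unfold wt
    congr 1
    ext u
    simp only [mem_filter]
    constructor
    · rintro ⟨h1, h2⟩
      exact ⟨⟨h1, by rw [h2]; exact (mem_filter.mp hT).2⟩, h2⟩
    · rintro ⟨⟨h1, _⟩, h2⟩
      exact ⟨h1, h2⟩
  · intro u hu
    simp only [coe_filter, Set.mem_ofPred_eq, mem_univ, true_and] at hu ⊢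
    exact hu.2

theorem sum_wt_univ : ∑ T, wt L e T = (Kp L univ).card := by
  have h := sum_wt L e (fun _ => True)
  simpa using h

variable (he : Function.Injective e) (hr : ∀ y, y ∈ nb L univ (Kp L univ) ↔ ∃ b, e b = y)

include he hr

theorem UU_wt : UU (wt L e) := by
  intro S
  rw [sum_wt L e (fun T => ∃ b ∈ S, b ∈ T)]
  set K := Kp L univ with hK
  set T := K.filter (fun u => ∃ b ∈ S, b ∈ NB L e u) with hT
  have h1 : val L univ (K \ T) ≤ val L univ K := (kp_mx L univ).2 _ (subset_univ _)
  have h2 : nb L univ (K \ T) ⊆ nb L univ K \ S.image e := by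
    intro y hy
    obtain ⟨_, x, hx, hxy⟩ := (mem_nb _ _ _ _).mp hy
    rw [mem_sdiff] at hx ⊢
    refine ⟨(mem_nb _ _ _ _).mpr ⟨mem_univ _, x, hx.1, hxy⟩, fun hyS => hx.2 ?_⟩
    obtain ⟨b, hb, rfl⟩ := mem_image.mp hyS
    exact mem_filter.mpr ⟨hx.1, b, hb, (mem_NB L e x b).mpr hxy⟩
  have h3 : S.image e ⊆ nb L univ K := by
    intro y hy
    obtain ⟨b, _, rfl⟩ := mem_image.mp hy
    exact (hr _).mpr ⟨b, rfl⟩
  have h4 := card_le_card h2
  rw [card_sdiff_of_subset h3, card_image_of_injective _ he] at h4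
  have h5 := card_le_card h3
  rw [card_image_of_injective _ he] at h5
  have h6 : (K \ T).card = K.card - T.card := card_sdiff_of_subset (filter_subset _ _)
  have h7 : T.card ≤ K.card := card_le_card (filter_subset _ _)
  unfold val at h1
  omega

theorem not_UU (u : V) (hu : u ∈ Kp L univ) (hu' : u ∉ Km L univ) :
    ¬ UU (del (wt L e) (NB L e u)) := by
  intro hU
  set K := Kp L univ with hK
  set M := Km L univ with hM
  set A := nb L univ K with hA
  set AM := nb L univ M with hAM
  have hMK : M ⊆ K := km_sub (kp_mx L univ)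
  have hAA : AM ⊆ A := nb_mono L univ hMK
  set S : Finset B := univ.filter (fun b => e b ∉ AM) with hS
  have hScard : S.card = A.card - AM.card := by
    rw [← card_sdiff_of_subset hAA, ← card_image_of_injective S he]
    congr 1
    ext y
    rw [mem_image, mem_sdiff, hr]
    constructor
    · rintro ⟨b, hb, rfl⟩
      exact ⟨⟨b, rfl⟩, (mem_filter.mp hb).2⟩
    · rintro ⟨⟨b, rfl⟩, hb⟩
      exact ⟨b, mem_filter.mpr ⟨mem_univ _, hb⟩, rfl⟩
  have h1 := hU S
  -- touching vertices
  have h2 : (K.filter (fun u => ∃ b ∈ S, b ∈ NB L e u)) ⊆ K \ M := by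
    intro x hx
    rw [mem_filter] at hx
    rw [mem_sdiff]
    refine ⟨hx.1, fun hxM => ?_⟩
    obtain ⟨b, hb, hbx⟩ := hx.2
    apply (mem_filter.mp hb).2
    exact (mem_nb _ _ _ _).mpr ⟨mem_univ _, x, hxM, (mem_NB L e x b).mp hbx⟩
  have h3 := card_le_card h2
  rw [card_sdiff_of_subset hMK, ← sum_wt L e (fun T => ∃ b ∈ S, b ∈ T)] at h3
  have h4 : ∃ b ∈ S, b ∈ NB L e u := by
    by_contra hcon
    push Not at hcon
    have h5 : nb L univ (insert u M) ⊆ AM := by
      intro y hy
      obtain ⟨_, x, hx, hxy⟩ := (mem_nb _ _ _ _).mp hy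
      rw [mem_insert] at hx
      rcases hx with rfl | hx
      · have h6 : y ∈ A := (mem_nb _ _ _ _).mpr ⟨mem_univ _, x, hu, hxy⟩
        obtain ⟨b, rfl⟩ := (hr y).mp h6
        by_contra h7
        exact hcon b (mem_filter.mpr ⟨mem_univ _, h7⟩) ((mem_NB L e x b).mpr hxy)
      · exact (mem_nb _ _ _ _).mpr ⟨mem_univ _, x, hx, hxy⟩
    have h6 := card_le_card h5
    have h7 : val L univ (insert u M) ≤ val L univ M := (km_mx L univ).2 _ (subset_univ _)
    have h8 := card_insert_of_notMem hu'
    unfold val at h7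
    rw [h8, ← hAM] at h7
    push_cast at h7
    omega
  have h5 : ∑ T ∈ univ.filter (fun T : Finset B => ∃ b ∈ S, b ∈ T), del (wt L e) (NB L e u) T + 1 =
      ∑ T ∈ univ.filter (fun T : Finset B => ∃ b ∈ S, b ∈ T), wt L e T := by
    have hmem : NB L e u ∈ univ.filter (fun T : Finset B => ∃ b ∈ S, b ∈ T) :=
      mem_filter.mpr ⟨mem_univ _, h4⟩
    rw [← add_sum_erase _ _ hmem, ← add_sum_erase _ (fun T => wt L e T) hmem]
    have h6 : ∑ T ∈ (univ.filter (fun T : Finset B => ∃ b ∈ S, b ∈ T)).erase (NB L e u),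
        del (wt L e) (NB L e u) T =
        ∑ T ∈ (univ.filter (fun T : Finset B => ∃ b ∈ S, b ∈ T)).erase (NB L e u), wt L e T := by
      apply sum_congr rfl
      intro T hT
      have := (mem_erase.mp hT).1
      simp [del, this]
    rw [h6]
    have h7 : del (wt L e) (NB L e u) (NB L e u) = wt L e (NB L e u) - 1 := by simp [del]
    have h8 : 0 < wt L e (NB L e u) := card_pos.mpr ⟨u, mem_filter.mpr ⟨hu, rfl⟩⟩
    rw [h7]
    omega
  have h6 := mx_eq (kp_mx L univ) (km_mx L univ)
  unfold val at h6
  rw [← hK, ← hM, ← hA, ← hAM] at h6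
  have h7 := card_le_card hMK
  have h8 := card_le_card hAA
  omega

theorem cnt_mx (T : Finset B) (h : UU (del (wt L e) T)) :
    ((Km L univ).filter (fun u => NB L e u = T)).card = wt L e T := by
  unfold wt
  congr 1
  ext u
  rw [mem_filter, mem_filter]
  constructor
  · rintro ⟨h1, h2⟩
    exact ⟨km_sub (kp_mx L univ) h1, h2⟩
  · rintro ⟨h1, h2⟩
    refine ⟨?_, h2⟩
    by_contra h3
    apply not_UU L e he hr u h1 h3
    rw [h2]
    exact h

end graph

end Pool.Agent.TH87.RVD
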