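import Pool.Agent.H234RC.Defs
import Pool.Agent.TH87.RVD.Crit

set_option autoImplicit false
set_option linter.unusedSectionVars false

/-!
Hypomorphic graphs have the same least maximising set, and the card isomorphisms respect the
largest maximising sets and their neighbourhoods.
-/

namespace Pool.Agent.TH87.RVD

open Finset Classical
open Pool.Agent.H234RC (Hypo NonIso)

variable {V : Type} [Fintype V]

theorem km_nonempty (G : SimpleGraph V) (h : 0 < mu G univ) : (Km G univ).Nonempty := by
  rw [nonempty_iff_ne_empty]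
  intro h0
  have h1 := mx_mu (km_mx G univ)
  rw [h0] at h1
  have h2 : val G univ ∅ = 0 := by
    unfold val
    have : nb G univ ∅ = ∅ := by
      ext y
      simp [mem_nb]
    rw [this]
    simp
  omega

theorem mu_card_ge (G : SimpleGraph V) (v : V) : mu G univ - 1 ≤ mu G (univ.erase v) := by
  by_cases hv : v ∈ Km G univ
  · rw [mu_card_mem G v hv]
  · have := mu_card_not G v hv
    omega

/-- no neighbour of the largest maximising set is lost by the deletion of a vertex of the least -/
theorem nb_kp_erase (G : SimpleGraph V) (v : V) (hv : v ∈ Km G univ) :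
    nb G univ ((Kp G univ).erase v) = nb G univ (Kp G univ) := by
  have hvK : v ∈ Kp G univ := km_sub (kp_mx G univ) hv
  apply eq_of_subset_of_card_le (nb_mono G univ (erase_subset _ _))
  have h1 : ¬ IsMx G univ ((Kp G univ).erase v) := fun h =>
    (mem_erase.mp (km_sub h hv)).1 rfl
  have h2 : val G univ ((Kp G univ).erase v) < val G univ (Kp G univ) := by
    by_contra h
    push Not at h
    exact h1 (mx_of_ge (kp_mx G univ) (subset_univ _) h)
  have h3 := card_erase_of_mem hvK
  have h4 : 0 < (Kp G univ).card := card_pos.mpr ⟨v, hvK⟩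
  unfold val at h2
  rw [h3] at h2
  omega

theorem kp_not_nb (G : SimpleGraph V) {x : V} (hx : x ∈ Kp G univ) :
    x ∉ nb G univ (Kp G univ) := by
  intro h
  obtain ⟨_, y, hy, hyx⟩ := (mem_nb _ _ _ _).mp h
  exact mx_indep (kp_mx G univ) hy hx hyx

section hyp

variable {G H : SimpleGraph V} {π : V → Equiv.Perm V} (hH : Hypo G H π)

include hH

theorem pi_erase (v x : V) : π v x ∈ univ.erase v ↔ x ∈ univ.erase v := by
  simp only [mem_erase, mem_univ, and_true, ne_eq]
  rw [not_iff_not]
  constructor
  · intro h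
    apply (π v).injective
    rw [h, hH.fix]
  · rintro rfl
    exact hH.fix _

theorem kp_pi (v : V) : (∀ x, π v x ∈ Kp H (univ.erase v) ↔ x ∈ Kp G (univ.erase v)) ∧
    mu H (univ.erase v) = mu G (univ.erase v) :=
  kp_map G H (π v) _ _ (pi_erase hH v) (fun x y hx hy =>
    hH.adj v x y (mem_erase.mp hx).1 (mem_erase.mp hy).1)

theorem mu_eq (h4 : 4 ≤ mu G univ) : mu H univ = mu G univ := by
  obtain ⟨v, hv⟩ := km_nonempty G (by omega)
  have h1 := mu_card_mem G v hv
  have h2 := (kp_pi hH v).2
  have h3 := mu_card_le H v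
  obtain ⟨u, hu⟩ := km_nonempty H (by omega)
  have h5 := mu_card_mem H u hu
  have h6 := (kp_pi hH u).2
  have h7 := mu_card_ge G u
  have h8 := mu_card_ge H v
  omega

variable (h4 : 4 ≤ mu G univ)

include h4

theorem km_eq : Km H univ = Km G univ := by
  have hmu := mu_eq hH h4
  ext v
  have h2 := (kp_pi hH v).2
  constructor
  · intro hv
    by_contra hn
    have h3 := mu_card_mem H v hv
    have h5 := mu_card_not G v hn
    omega
  · intro hv
    by_contra hn
    have h3 := mu_card_mem G v hv
    have h5 := mu_card_not H v hn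
    omega

theorem kp_iff (v : V) (hv : v ∈ Km G univ) (x : V) :
    π v x ∈ Kp H univ ↔ x ∈ Kp G univ := by
  have hv' : v ∈ Km H univ := by rw [km_eq hH h4]; exact hv
  have h1 := (kp_pi hH v).1 x
  rw [kp_card G v hv, kp_card H v hv'] at h1
  by_cases hx : x = v
  · subst hx
    rw [hH.fix]
    have h2 := km_sub (kp_mx G univ) hv
    have h3 := km_sub (kp_mx H univ) hv'
    exact ⟨fun _ => h2, fun _ => h3⟩
  · have hx' : π v x ≠ v := fun h => hx ((π v).injective (by rw [h, hH.fix]))
    simp only [mem_erase] at h1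
    constructor
    · intro h
      exact (h1.mp ⟨hx', h⟩).2
    · intro h
      exact (h1.mpr ⟨hx, h⟩).2

theorem nb_iff (v : V) (hv : v ∈ Km G univ) (y : V) :
    π v y ∈ nb H univ (Kp H univ) ↔ y ∈ nb G univ (Kp G univ) := by
  have hv' : v ∈ Km H univ := by rw [km_eq hH h4]; exact hv
  have hvG := km_sub (kp_mx G univ) hv
  have hvH := km_sub (kp_mx H univ) hv'
  constructor
  · intro hy
    have hyv : y ≠ v := by
      rintro rfl
      rw [hH.fix] at hy
      exact kp_not_nb H hvH hy
    rw [← nb_kp_erase H v hv'] at hy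
    obtain ⟨_, x, hx, hxy⟩ := (mem_nb _ _ _ _).mp hy
    obtain ⟨z, rfl⟩ := (π v).surjective x
    rw [mem_erase] at hx
    have hzv : z ≠ v := by
      rintro rfl
      exact hx.1 (hH.fix _)
    rw [hH.adj v z y hzv hyv] at hxy
    exact (mem_nb _ _ _ _).mpr ⟨mem_univ _, z, (kp_iff hH h4 v hv z).mp hx.2, hxy⟩
  · intro hy
    have hyv : y ≠ v := by
      rintro rfl
      exact kp_not_nb G hvG hy
    rw [← nb_kp_erase G v hv] at hy
    obtain ⟨_, x, hx, hxy⟩ := (mem_nb _ _ _ _).mp hy
    rw [mem_erase] at hx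
    rw [← hH.adj v x y hx.1 hyv] at hxy
    exact (mem_nb _ _ _ _).mpr ⟨mem_univ _, π v x, (kp_iff hH h4 v hv x).mpr hx.2, hxy⟩

end hyp

end Pool.Agent.TH87.RVD
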