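import Pool.Agent.TH87.RVC.Bound

set_option autoImplicit false
set_option linter.unusedSectionVars false

/-!
Multisets under a permutation group when only some of the elements may be deleted: those whose
deletion stays in an upward closed invariant family `U`.
-/

namespace Pool.Agent.TH87.RVD

open Finset
open Pool.Agent.TH87.RVC

variable {X Γ : Type} [Fintype X] [DecidableEq X] [Group Γ] [Fintype Γ] (φ : Γ →* Equiv.Perm X)
  (U : (X → ℕ) → Prop)

theorem FF_zero_of_not (hmono : ∀ c c' : X → ℕ, (∀ x, c x ≤ c' x) → U c → U c')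
    (hinv : ∀ (g : Γ) (c : X → ℕ), U (fun x => c (φ g x)) → U c) (c w : X → ℕ) (hc : U c)
    (hw : ¬ U w) : FF φ c w = 0 := by
  unfold FF
  apply sum_eq_zero
  intro γ _
  by_contra hcon
  apply hw
  apply hinv γ
  apply hmono c _ _ hc
  intro x
  by_contra hlt
  apply hcon
  apply prod_eq_zero (mem_univ x)
  rw [Nat.choose_eq_zero_of_lt (by omega)]
  simp

theorem kelly_part_sum {ι : Type} [Fintype ι] (w : X → ℕ) (t : ι → X) (m : ℕ)
    (hw : ∑ x, w x = m)
    (hmono : ∀ c c' : X → ℕ, (∀ x, c x ≤ c' x) → U c → U c')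
    (hinv : ∀ (g : Γ) (c : X → ℕ), U (fun x => c (φ g x)) → U c)
    (hD : ∀ x, U (del w x) → cnt t x = w x) (c : X → ℕ) (hc : U c) :
    ∑ i, FF φ c (del w (t i)) = ((m : ℝ) - ∑ z, (c z : ℝ)) * FF φ c w := by
  rw [sum_cnt t (fun x => FF φ c (del w x))]
  have h1 := kelly_sum φ c w
  have h2 : (∑ z, (w z : ℝ)) = m := by exact_mod_cast hw
  rw [h2] at h1
  rw [← h1]
  apply sum_congr rfl
  intro x _
  by_cases h : U (del w x)
  · rw [hD x h]
  · rw [FF_zero_of_not φ U hmono hinv c _ hc h, mul_zero, mul_zero]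

theorem kelly_part {ι : Type} [Fintype ι] (w w' : X → ℕ) (t t' : ι → X) (m : ℕ)
    (hw : ∑ x, w x = m) (hw' : ∑ x, w' x = m)
    (hmono : ∀ c c' : X → ℕ, (∀ x, c x ≤ c' x) → U c → U c')
    (hinv : ∀ (g : Γ) (c : X → ℕ), U (fun x => c (φ g x)) → U c)
    (hD : ∀ x, U (del w x) → cnt t x = w x)
    (hD' : ∀ x, U (del w' x) → cnt t' x = w' x)
    (hdeck : ∀ i, ∃ g : Γ, ∀ x, del w' (t' i) (φ g x) = del w (t i) x)
    (c : X → ℕ) (hc : U c) (hcm : ∑ x, c x < m) :
    FF φ c w = FF φ c w' := by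
  have h1 := kelly_part_sum φ U w t m hw hmono hinv hD c hc
  have h2 := kelly_part_sum φ U w' t' m hw' hmono hinv hD' c hc
  have h3 : ∀ i, FF φ c (del w (t i)) = FF φ c (del w' (t' i)) := by
    intro i
    obtain ⟨g, hg⟩ := hdeck i
    rw [← FF_inv φ c (del w' (t' i)) g]
    congr 1
    funext x
    exact (hg x).symm
  simp_rw [h3] at h1
  rw [h1] at h2
  have hne : ((m : ℝ) - ∑ z, (c z : ℝ)) ≠ 0 := by
    have : (∑ z, (c z : ℝ)) < m := by exact_mod_cast hcm
    exact sub_ne_zero.mpr (ne_of_gt this)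
  exact mul_left_cancel₀ hne h2

/-- coefficients of the test function -/
noncomputable def bb (S0 : Finset X) (w : X → ℕ) (x : X) (j : ℕ) : ℝ :=
  if x ∈ S0 then (if j = w x then 1 else 0) else aa w x j

theorem choose_hh (n k : ℕ) : (n.choose k : ℝ) * hh k ≤ hh n := by
  rcases lt_or_ge n k with h | h
  · rw [Nat.choose_eq_zero_of_lt h]
    simp [(hh_pos n).le]
  · unfold hh
    have h1 : n.choose k * k.factorial * (n - k).factorial = n.factorial :=
      Nat.choose_mul_factorial_mul_factorial h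
    have h2 : (n.choose k : ℝ) * (k.factorial : ℝ) ≤ (n.factorial : ℝ) := by
      have h3 : n.choose k * k.factorial ≤ n.factorial := by
        rw [← h1]
        exact Nat.le_mul_of_pos_right _ (Nat.factorial_pos _)
      exact_mod_cast h3
    have h4 : (2 : ℝ) ^ k ≤ 2 ^ n := pow_le_pow_right₀ (by norm_num) h
    calc (n.choose k : ℝ) * ((k.factorial : ℝ) * 2 ^ k)
        = ((n.choose k : ℝ) * (k.factorial : ℝ)) * 2 ^ k := by ring
      _ ≤ (n.factorial : ℝ) * 2 ^ n := by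
          apply mul_le_mul h2 h4 (by positivity) (by positivity)

theorem bb_bound (S0 : Finset X) (w : X → ℕ) (x : X) (n : ℕ) :
    |∑ j ∈ range (w x + 1), bb S0 w x j * (n.choose j : ℝ)| * hh (w x) ≤ hh n := by
  by_cases h : x ∈ S0
  · have : ∑ j ∈ range (w x + 1), bb S0 w x j * (n.choose j : ℝ) = (n.choose (w x) : ℝ) := by
      rw [sum_eq_single (w x)]
      · simp [bb, h]
      · intro j _ hj
        simp [bb, h, hj]
      · intro hn
        exact absurd (mem_range.mpr (Nat.lt_succ_self _)) hn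
    rw [this, abs_of_nonneg (Nat.cast_nonneg _)]
    exact choose_hh n (w x)
  · have : ∑ j ∈ range (w x + 1), bb S0 w x j * (n.choose j : ℝ) =
        ∑ j ∈ range (w x + 1), aa w x j * (n.choose j : ℝ) := by
      apply sum_congr rfl
      intro j _
      simp [bb, h]
    rw [this]
    exact aa_bound w x n

theorem bb_top (S0 : Finset X) (w : X → ℕ) :
    ∏ x, bb S0 w x (w x) =
      (3 / 2 : ℝ) ^ (univ.filter (fun x => x ∉ S0 ∧ w x ≠ 0)).card := by
  have : ∀ x, bb S0 w x (w x) = if x ∉ S0 ∧ w x ≠ 0 then (3 / 2 : ℝ) else 1 := by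
    intro x
    unfold bb
    by_cases h1 : x ∈ S0
    · simp [h1]
    · unfold aa
      by_cases h : w x = 0
      · simp [h1, h]
      · simp [h1, h]
  simp_rw [this]
  rw [Finset.prod_ite, prod_const, prod_const_one, mul_one]

theorem phi_bound' (S0 : Finset X) (w u : X → ℕ) (hP : ∏ x, hh (u x) ≤ ∏ x, hh (w x)) :
    |∑ γ : Γ, ∏ x, (∑ j ∈ range (w x + 1), bb S0 w x j * ((u (φ γ x)).choose j : ℝ))| ≤
      Fintype.card Γ := by
  have hPw : 0 < ∏ x, hh (w x) := prod_pos (fun x _ => hh_pos _)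
  have h1 : ∀ γ : Γ,
      |∏ x, (∑ j ∈ range (w x + 1), bb S0 w x j * ((u (φ γ x)).choose j : ℝ))| ≤ 1 := by
    intro γ
    rw [abs_prod]
    have h2 : (∏ x, |∑ j ∈ range (w x + 1), bb S0 w x j * ((u (φ γ x)).choose j : ℝ)|) *
        ∏ x, hh (w x) ≤ ∏ x, hh (w x) := by
      rw [← prod_mul_distrib]
      calc _ ≤ ∏ x, hh (u (φ γ x)) := by
            apply prod_le_prod
            · intro x _
              exact mul_nonneg (abs_nonneg _) (hh_pos _).le
            · intro x _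
              exact bb_bound S0 w x _
        _ = ∏ x, hh (u x) := Equiv.prod_comp (φ γ) (fun x => hh (u x))
        _ ≤ _ := hP
    nlinarith [h2, hPw]
  calc |∑ γ : Γ, ∏ x, (∑ j ∈ range (w x + 1), bb S0 w x j * ((u (φ γ x)).choose j : ℝ))|
      ≤ ∑ γ : Γ, |∏ x, (∑ j ∈ range (w x + 1), bb S0 w x j * ((u (φ γ x)).choose j : ℝ))| :=
        abs_sum_le_sum_abs _ _
    _ ≤ ∑ γ : Γ, (1 : ℝ) := sum_le_sum (fun γ _ => h1 γ)
    _ = Fintype.card Γ := by simp

theorem test_part (S0 : Finset X) (w w' : X → ℕ) (m : ℕ) (hw : ∑ x, w x = m)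
    (hS0 : ∀ c : X → ℕ, (∀ x ∈ S0, w x ≤ c x) → U c)
    (hk : ∀ c : X → ℕ, U c → ∑ x, c x < m → FF φ c w = FF φ c w') :
    ∑ γ : Γ, ∏ x, (∑ j ∈ range (w x + 1), bb S0 w x j * ((w (φ γ x)).choose j : ℝ)) -
    ∑ γ : Γ, ∏ x, (∑ j ∈ range (w x + 1), bb S0 w x j * ((w' (φ γ x)).choose j : ℝ)) =
      (∏ x, bb S0 w x (w x)) * (FF φ w w - FF φ w w') := by
  rw [expand, expand, ← Finset.sum_sub_distrib]
  rw [Finset.sum_eq_single w]
  · ring
  · intro c hc hne
    by_cases h0 : ∏ x, bb S0 w x (c x) = 0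
    · rw [h0]; ring
    have hle : ∀ x, c x ≤ w x := by
      intro x
      have := Fintype.mem_piFinset.mp hc x
      rw [mem_range] at this
      omega
    have hlt : ∑ x, c x < m := by
      rw [← hw]
      obtain ⟨x, hx⟩ := Function.ne_iff.mp hne
      exact Finset.sum_lt_sum (fun x _ => hle x) ⟨x, mem_univ x, lt_of_le_of_ne (hle x) hx⟩
    have hU : U c := by
      apply hS0
      intro x hx
      by_contra hlt'
      apply h0
      apply prod_eq_zero (mem_univ x)
      have : c x ≠ w x := by omega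
      simp [bb, hx, this]
    rw [hk c hU hlt]
    ring
  · intro h
    exact absurd (Fintype.mem_piFinset.mpr (fun x => by simp)) h

theorem supp_part (S0 : Finset X) (w w' : X → ℕ) (m : ℕ) (hw : ∑ x, w x = m)
    (hw' : ∑ x, w' x = m)
    (hS0 : ∀ c : X → ℕ, (∀ x ∈ S0, w x ≤ c x) → U c)
    (hk : ∀ c : X → ℕ, U c → ∑ x, c x < m → FF φ c w = FF φ c w')
    (hne : ¬ ∃ γ : Γ, ∀ x, w' (φ γ x) = w x)
    (hP : ∏ x, hh (w' x) ≤ ∏ x, hh (w x)) :
    (3 / 2 : ℝ) ^ (univ.filter (fun x => x ∉ S0 ∧ w x ≠ 0)).card ≤ 2 * Fintype.card Γ := by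
  have h1 := test_part φ U S0 w w' m hw hS0 hk
  rw [bb_top] at h1
  have h2 : 1 ≤ FF φ w w := by
    unfold FF
    have h3 := single_le_sum (f := fun γ : Γ => ∏ x, ((w (φ γ x)).choose (w x) : ℝ)) (s := univ)
      (fun γ _ => prod_nonneg (fun x _ => Nat.cast_nonneg _)) (mem_univ (1 : Γ))
    simpa using h3
  have h3 : FF φ w w' = 0 := by
    unfold FF
    apply sum_eq_zero
    intro γ _
    by_contra hcon
    apply hne
    refine ⟨γ, eq_of_le_sum w (fun x => w' (φ γ x)) ?_ ?_⟩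
    · intro x
      by_contra hlt
      apply hcon
      apply prod_eq_zero (mem_univ x)
      rw [Nat.choose_eq_zero_of_lt (by omega)]
      simp
    · rw [hw, ← hw']
      exact (Equiv.sum_comp (φ γ) w').symm
  rw [h3, sub_zero] at h1
  have h4 := phi_bound' φ S0 w w le_rfl
  have h5 := phi_bound' φ S0 w w' hP
  have h6 : (0 : ℝ) < (3 / 2 : ℝ) ^ (univ.filter (fun x => x ∉ S0 ∧ w x ≠ 0)).card := by
    positivity
  have h7 := abs_le.mp h4
  have h8 := abs_le.mp h5
  nlinarith [h7.1, h7.2, h8.1, h8.2]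

theorem supp_le (w w' : X → ℕ) (y y' : X) (g : Γ)
    (h : ∀ x, del w' y' (φ g x) = del w y x) :
    (univ.filter (fun x => w x ≠ 0)).card ≤ (univ.filter (fun x => w' x ≠ 0)).card + 1 := by
  have h1 : (univ.filter (fun x => w x ≠ 0)) ⊆
      insert y (univ.filter (fun x => w' (φ g x) ≠ 0)) := by
    intro x hx
    rw [mem_filter] at hx
    rw [mem_insert]
    by_cases hxy : x = y
    · exact Or.inl hxy
    · right
      rw [mem_filter]
      refine ⟨mem_univ _, fun h0 => hx.2 ?_⟩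
      have h2 := h x
      have h3 : del w y x = w x := by simp [del, hxy]
      have h4 : del w' y' (φ g x) = 0 := by
        unfold del
        split_ifs <;> omega
      rw [← h3, ← h2, h4]
  have h2 : (univ.filter (fun x => w' (φ g x) ≠ 0)).card =
      (univ.filter (fun x => w' x ≠ 0)).card := by
    apply card_bij (fun x _ => φ g x)
    · intro x hx
      simp only [mem_filter, mem_univ, true_and] at hx ⊢
      exact hx
    · intro x _ y _ hxy
      exact (φ g).injective hxy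
    · intro z hz
      simp only [mem_filter, mem_univ, true_and] at hz
      exact ⟨(φ g).symm z, by simp [hz], by simp⟩
  calc _ ≤ (insert y (univ.filter (fun x => w' (φ g x) ≠ 0))).card := card_le_card h1
    _ ≤ (univ.filter (fun x => w' (φ g x) ≠ 0)).card + 1 := card_insert_le _ _
    _ = _ := by rw [h2]

theorem main_part {ι : Type} [Fintype ι] [Nonempty ι] (w w' : X → ℕ) (t t' : ι → X) (m q : ℕ)
    (hw : ∑ x, w x = m) (hw' : ∑ x, w' x = m)
    (hmono : ∀ c c' : X → ℕ, (∀ x, c x ≤ c' x) → U c → U c')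
    (hinv : ∀ (g : Γ) (c : X → ℕ), U (fun x => c (φ g x)) → U c)
    (hD : ∀ x, U (del w x) → cnt t x = w x)
    (hD' : ∀ x, U (del w' x) → cnt t' x = w' x)
    (hdeck : ∀ i, ∃ g : Γ, ∀ x, del w' (t' i) (φ g x) = del w (t i) x)
    (hS : ∃ S0 : Finset X, S0.card ≤ q ∧ ∀ c : X → ℕ, (∀ x ∈ S0, w x ≤ c x) → U c)
    (hS' : ∃ S0 : Finset X, S0.card ≤ q ∧ ∀ c : X → ℕ, (∀ x ∈ S0, w' x ≤ c x) → U c)
    (hne : ¬ ∃ γ : Γ, ∀ x, w' (φ γ x) = w x) :
    ∃ s : ℕ, (univ.filter (fun x => w x ≠ 0)).card ≤ q + 1 + s ∧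
      (3 / 2 : ℝ) ^ s ≤ 2 * Fintype.card Γ := by
  have hk := kelly_part φ U w w' t t' m hw hw' hmono hinv hD hD' hdeck
  obtain ⟨i0⟩ := (inferInstance : Nonempty ι)
  obtain ⟨g0, hg0⟩ := hdeck i0
  have hsupp := supp_le φ w w' (t i0) (t' i0) g0 hg0
  have hsplit : ∀ (v : X → ℕ) (S0 : Finset X), (univ.filter (fun x => v x ≠ 0)).card ≤
      S0.card + (univ.filter (fun x => x ∉ S0 ∧ v x ≠ 0)).card := by
    intro v S0
    calc _ ≤ (S0 ∪ univ.filter (fun x => x ∉ S0 ∧ v x ≠ 0)).card := by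
          apply card_le_card
          intro x hx
          rw [mem_union, mem_filter]
          by_cases h : x ∈ S0
          · exact Or.inl h
          · exact Or.inr ⟨mem_univ _, h, (mem_filter.mp hx).2⟩
      _ ≤ _ := card_union_le _ _
  rcases le_total (∏ x, hh (w' x)) (∏ x, hh (w x)) with hP | hP
  · obtain ⟨S0, hS0, hS1⟩ := hS
    refine ⟨_, ?_, supp_part φ U S0 w w' m hw hw' hS1 hk hne hP⟩
    have := hsplit w S0
    omega
  · obtain ⟨S0, hS0, hS1⟩ := hS'
    have hne' : ¬ ∃ γ : Γ, ∀ x, w (φ γ x) = w' x := by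
      rintro ⟨γ, hγ⟩
      apply hne
      refine ⟨γ⁻¹, fun x => ?_⟩
      rw [← hγ]
      congr 1
      rw [map_inv]
      exact (φ γ).apply_symm_apply x
    refine ⟨_, ?_, supp_part φ U S0 w' w m hw' hw hS1 (fun c h1 h2 => (hk c h1 h2).symm) hne' hP⟩
    have := hsplit w' S0
    omega

end Pool.Agent.TH87.RVD
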