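import Pool.Agent.TH87.RVC.Iso
import Pool.Agent.TH87.RVD.Part
import Pool.Agent.TH87.RVD.Hyp
import Pool.Agent.TH87.RVD.Hall

set_option autoImplicit false
set_option linter.unusedSectionVars false

/-!
The bound for two hypomorphic graphs which are not isomorphic.
-/

namespace Pool.Agent.TH87.RVD

open Finset Classical
open Pool.Agent.H234RC (Hypo NonIso)
open Pool.Agent.TH87.RVC (del cnt actF mem_actF relAut mem_iff_of_maps)

variable {V : Type} [Fintype V]

theorem cnt_sub {X : Type} [DecidableEq X] (M : Finset V) (f : V → X) (x : X) :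
    cnt (fun i : {v // v ∈ M} => f i) x = (M.filter (fun u => f u = x)).card := by
  unfold cnt
  apply card_bij (fun (i : {v // v ∈ M}) _ => (i : V))
  · intro i hi
    simp only [mem_filter, mem_univ, true_and] at hi ⊢
    exact ⟨i.2, hi⟩
  · intro i _ j _ h
    exact Subtype.ext h
  · intro u hu
    rw [mem_filter] at hu
    exact ⟨⟨u, hu.1⟩, by simp [hu.2], rfl⟩

theorem wt_eq {B : Type} [Fintype B] [DecidableEq (Finset B)] (L : SimpleGraph V) (e : B → V)
    (T : Finset B) : wt L e T = ((Kp L univ).filter (fun u => NB L e u = T)).card := by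
  unfold wt
  congr

theorem wt_ne {B : Type} [Fintype B] (L : SimpleGraph V) (e : B → V)
    (u : V) (hu : u ∈ Kp L univ) : wt L e (NB L e u) ≠ 0 :=
  (show 0 < wt L e (NB L e u) from card_pos.mpr ⟨u, mem_filter.mpr ⟨hu, rfl⟩⟩).ne'

theorem cnt_mx' {B : Type} [Fintype B] [inst : DecidableEq (Finset B)] (L : SimpleGraph V)
    (e : B → V) (he : Function.Injective e)
    (hr : ∀ y, y ∈ nb L univ (Kp L univ) ↔ ∃ b, e b = y) (T : Finset B)
    (h : UU (@del (Finset B) inst (wt L e) T)) :
    ((Km L univ).filter (fun u => NB L e u = T)).card = wt L e T := by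
  have h1 : ∀ i1 i2 : DecidableEq (Finset B),
      UU (@del (Finset B) i1 (wt L e) T) → UU (@del (Finset B) i2 (wt L e) T) := by
    intro i1 i2 h
    rw [Subsingleton.elim i2 i1]
    exact h
  rw [← cnt_mx L e he hr T (h1 _ _ h)]
  congr

theorem del_wt {B : Type} [Fintype B] [DecidableEq (Finset B)] (L : SimpleGraph V) (e : B → V) (v : V)
    (hv : v ∈ Kp L univ) (T : Finset B) :
    del (wt L e) (NB L e v) T = ((Kp L univ).filter (fun u => u ≠ v ∧ NB L e u = T)).card := by
  unfold del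
  rw [wt_eq]
  have h0 : ((Kp L univ).filter (fun u => u ≠ v ∧ NB L e u = T)) =
      ((Kp L univ).filter (fun u => NB L e u = T)).erase v := by
    ext u
    simp only [mem_filter, mem_erase]
    tauto
  rw [h0]
  by_cases h : T = NB L e v
  · rw [if_pos h, card_erase_of_mem (mem_filter.mpr ⟨hv, h.symm⟩)]
  · rw [if_neg h, erase_eq_of_notMem]
    intro h'
    exact h (mem_filter.mp h').2.symm

theorem graph_bound2 {G H : SimpleGraph V} {π : V → Equiv.Perm V} (hH : Hypo G H π)
    (hN : NonIso G H) (h4 : 4 ≤ mu G univ) :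
    ∃ s : ℕ, ((Kp G univ).image (fun u => univ.filter (fun y => G.Adj u y))).card ≤
        2 * (nb G univ (Kp G univ)).card + 1 + s ∧
      (3 / 2 : ℝ) ^ s ≤ 2 * ((nb G univ (Kp G univ)).card.factorial : ℝ) := by
  obtain ⟨i0, hi0⟩ := km_nonempty G (by omega)
  set K := Kp G univ with hK
  set A := nb G univ K with hA
  set K' := Kp H univ with hK'
  set A' := nb H univ K' with hA'
  have hkm : Km H univ = Km G univ := km_eq hH h4
  have hMK : ∀ v ∈ Km G univ, v ∈ K := fun v hv => km_sub (kp_mx G univ) hv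
  have hMK' : ∀ v ∈ Km G univ, v ∈ K' := fun v hv => km_sub (kp_mx H univ) (hkm ▸ hv)
  have hKiff : ∀ v ∈ Km G univ, ∀ x, π v x ∈ K' ↔ x ∈ K := fun v hv x => kp_iff hH h4 v hv x
  have hAiff : ∀ v ∈ Km G univ, ∀ x, π v x ∈ A' ↔ x ∈ A := fun v hv x => nb_iff hH h4 v hv x
  have hKA : ∀ v ∈ K, v ∉ A := fun v hv => kp_not_nb G hv
  have hadjA : ∀ x y, x ∈ K → G.Adj x y → y ∈ A := fun x y hx h =>
    (mem_nb _ _ _ _).mpr ⟨mem_univ _, x, hx, h⟩
  have hadjA' : ∀ x y, x ∈ K' → H.Adj x y → y ∈ A' := fun x y hx h =>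
    (mem_nb _ _ _ _).mpr ⟨mem_univ _, x, hx, h⟩
  let B := {x // x ∈ A}
  let eG : B → V := fun b => b
  let eH : B → V := fun b => π i0 b
  have heG : Function.Injective eG := Subtype.val_injective
  have heH : Function.Injective eH := fun a b h => Subtype.ext ((π i0).injective h)
  have hrG : ∀ y, y ∈ nb G univ (Kp G univ) ↔ ∃ b, eG b = y := fun y =>
    ⟨fun h => ⟨⟨y, h⟩, rfl⟩, by rintro ⟨b, rfl⟩; exact b.2⟩
  have hrH : ∀ y, y ∈ nb H univ (Kp H univ) ↔ ∃ b, eH b = y := by
    intro y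
    constructor
    · intro h
      obtain ⟨z, rfl⟩ := (π i0).surjective y
      exact ⟨⟨z, (hAiff i0 hi0 z).mp h⟩, rfl⟩
    · rintro ⟨b, rfl⟩
      exact (hAiff i0 hi0 b).mpr b.2
  let Γ := relAut G A K
  let φ : Γ →* Equiv.Perm (Finset B) := (actF _).comp Γ.subtype
  have hφ : ∀ (g : Γ) s, φ g s = actF _ (g : Equiv.Perm B) s := fun g s => rfl
  let ι := {v // v ∈ Km G univ}
  let t : ι → Finset B := fun i => NB G eG i
  let t' : ι → Finset B := fun i => NB H eH i
  have : Nonempty ι := ⟨⟨i0, hi0⟩⟩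
  -- the permutations of `A`
  have hpA : ∀ v ∈ Km G univ, ∀ x, ((π i0).symm * π v) x ∈ A ↔ x ∈ A := by
    intro v hv x
    rw [Equiv.Perm.mul_apply, ← hAiff i0 hi0, Equiv.apply_symm_apply, hAiff v hv]
  have hpK : ∀ v ∈ Km G univ, ∀ x, ((π i0).symm * π v) x ∈ K ↔ x ∈ K := by
    intro v hv x
    rw [Equiv.Perm.mul_apply, ← hKiff i0 hi0, Equiv.apply_symm_apply, hKiff v hv]
  let β : ι → Equiv.Perm B := fun i =>
    Equiv.Perm.subtypePerm ((π i0).symm * π i : Equiv.Perm V) (hpA i i.2)
  have hβ : ∀ i (x : B), eH (β i x) = π i x := by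
    intro i x
    show π i0 ((π i0).symm (π i x)) = π i x
    rw [Equiv.apply_symm_apply]
  have hrel : ∀ (i : ι) (u : V), u ≠ i → NB H eH (π i u) = actF _ (β i) (NB G eG u) := by
    intro i u hu
    ext x
    obtain ⟨y, rfl⟩ := (β i).surjective x
    rw [mem_actF, mem_NB, mem_NB, hβ]
    have hyi : (y : V) ≠ i := fun h => hKA i (hMK i i.2) (h ▸ y.2)
    exact hH.adj i u y hu hyi
  have hmem : ∀ i : ι, β i ∈ Γ := by
    intro i
    refine ⟨(π i0).symm * π i, fun x => rfl, hpK i i.2, fun x y hx hy => ?_⟩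
    have hx1 : (π i0).symm (π i x) ∉ K := fun h => hx ((hpK i i.2 x).mp h)
    have hy1 : (π i0).symm (π i y) ∉ K := fun h => hy ((hpK i i.2 y).mp h)
    have hx2 : (π i0).symm (π i x) ≠ i0 := fun h => hx1 (by rw [h]; exact hMK i0 hi0)
    have hy2 : (π i0).symm (π i y) ≠ i0 := fun h => hy1 (by rw [h]; exact hMK i0 hi0)
    have h1 := hH.adj i0 _ _ hx2 hy2
    rw [Equiv.apply_symm_apply, Equiv.apply_symm_apply] at h1
    rw [Equiv.Perm.mul_apply, Equiv.Perm.mul_apply, ← h1]
    exact hH.adj i x y (fun h => hx (h ▸ hMK i i.2)) (fun h => hy (h ▸ hMK i i.2))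
  -- deck condition
  have hdeck : ∀ i, ∃ g : Γ, ∀ x, del (wt H eH) (t' i) (φ g x) = del (wt G eG) (t i) x := by
    intro i
    refine ⟨⟨_, hmem i⟩, fun x => ?_⟩
    show del (wt H eH) (NB H eH i) _ = del (wt G eG) (NB G eG i) _
    rw [del_wt H eH i (hMK' i i.2), del_wt G eG i (hMK i i.2)]
    symm
    apply card_bij' (fun u _ => π i u) (fun u _ => (π i).symm u)
    · intro u hu
      rw [mem_filter] at hu ⊢
      refine ⟨(hKiff i i.2 u).mpr hu.1, fun h => hu.2.1 ?_, ?_⟩
      · apply (π i).injective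
        rw [h, hH.fix]
      · rw [hrel i u hu.2.1, hu.2.2, hφ]
    · intro u hu
      rw [mem_filter] at hu ⊢
      have h1 : (π i).symm u ≠ i := by
        intro h
        apply hu.2.1
        have := congrArg (π i) h
        rwa [Equiv.apply_symm_apply, hH.fix] at this
      refine ⟨?_, h1, ?_⟩
      · rw [← hKiff i i.2, Equiv.apply_symm_apply]
        exact hu.1
      · have h2 := hrel i _ h1
        rw [Equiv.apply_symm_apply, hu.2.2, hφ] at h2
        exact ((actF _ (β i)).injective h2).symm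
    · intro u _
      simp
    · intro u _
      simp
  -- not equivalent
  have hneq : ¬ ∃ γ : Γ, ∀ x, wt H eH (φ γ x) = wt G eG x := by
    rintro ⟨⟨γ, ρ, hρ1, hρ2, hρ3⟩, hγ⟩
    apply hN
    have hfib : ∀ c : Finset B,
        Nonempty ({j : {u // u ∈ K} // actF _ γ (NB G eG j) = c} ≃
          {j : {u // u ∈ K'} // NB H eH j = c}) := by
      intro c
      obtain ⟨x, rfl⟩ := (actF _ γ).surjective c
      have h1 : wt H eH (actF _ γ x) = wt G eG x := hγ x
      refine ⟨Fintype.equivOfCardEq ?_⟩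
      rw [Fintype.card_subtype, Fintype.card_subtype]
      have h2 : (univ.filter (fun j : {u // u ∈ K} => actF _ γ (NB G eG j) = actF _ γ x)) =
          univ.filter (fun j : {u // u ∈ K} => NB G eG j = x) := by
        ext j
        simp
      rw [h2]
      have h3 : (univ.filter (fun j : {u // u ∈ K} => NB G eG j = x)).card =
          (K.filter (fun u => NB G eG u = x)).card := by
        exact cnt_sub K (NB G eG) x
      have h5 : (univ.filter (fun j : {u // u ∈ K'} => NB H eH j = actF _ γ x)).card =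
          (K'.filter (fun u => NB H eH u = actF _ γ x)).card := by
        exact cnt_sub K' (NB H eH) (actF _ γ x)
      rw [wt_eq, wt_eq] at h1
      rw [h3, h5]
      exact h1.symm
    let θ : {u // u ∈ K} ≃ {u // u ∈ K'} := Equiv.ofFiberEquiv (fun c => (hfib c).some)
    have hθ : ∀ j : {u // u ∈ K}, NB H eH (θ j) = actF _ γ (NB G eG j) := fun j =>
      Equiv.ofFiberEquiv_map (f := fun j : {u // u ∈ K} => actF _ γ (NB G eG j))
        (g := fun j : {u // u ∈ K'} => NB H eH j) _ j
    let σ0 : V → V := fun x => if h : x ∈ K then (θ ⟨x, h⟩ : V) else π i0 (ρ x)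
    have hσF : ∀ x (h : x ∈ K), σ0 x = (θ ⟨x, h⟩ : V) := fun x h => by simp [σ0, h]
    have hσR : ∀ x, x ∉ K → σ0 x = π i0 (ρ x) := fun x h => by simp [σ0, h]
    have hσF' : ∀ x, x ∈ K → σ0 x ∈ K' := fun x h => by rw [hσF x h]; exact (θ _).2
    have hσR' : ∀ x, x ∉ K → σ0 x ∉ K' := fun x h => by
      rw [hσR x h, hKiff i0 hi0, hρ2]; exact h
    have hinj : Function.Injective σ0 := by
      intro x y hxy
      by_cases hx : x ∈ K
      · by_cases hy : y ∈ K
        · rw [hσF x hx, hσF y hy] at hxy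
          have := θ.injective (Subtype.ext hxy)
          exact congrArg Subtype.val this
        · exact absurd (hxy ▸ hσF' x hx) (hσR' y hy)
      · by_cases hy : y ∈ K
        · exact absurd (hxy ▸ hσF' y hy) (hσR' x hx)
        · rw [hσR x hx, hσR y hy] at hxy
          exact ρ.injective ((π i0).injective hxy)
    let σ : Equiv.Perm V := Equiv.ofBijective σ0 (Finite.injective_iff_bijective.mp hinj)
    have hσ : ∀ x, σ x = σ0 x := fun x => rfl
    refine ⟨σ, fun x y => ?_⟩
    rw [hσ, hσ]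
    have hAρ : ∀ y, ρ y ∈ A ↔ y ∈ A := by
      intro y
      have hmaps : ∀ u ∈ A, ρ u ∈ A := fun u hu => by
        rw [hρ1 ⟨u, hu⟩]; exact (γ ⟨u, hu⟩).2
      exact mem_iff_of_maps ρ A hmaps y
    have hmix : ∀ x y, x ∈ K → y ∉ K → (H.Adj (σ0 x) (σ0 y) ↔ G.Adj x y) := by
      intro x y hx hy
      by_cases hyA : y ∈ A
      · have h3 : σ0 y = eH (γ ⟨y, hyA⟩) := by
          rw [hσR y hy, hρ1 ⟨y, hyA⟩]
        rw [h3, hσF x hx, ← mem_NB, hθ ⟨x, hx⟩, mem_actF, mem_NB]
      · have h1 : ¬ G.Adj x y := fun h => hyA (hadjA x y hx h)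
        have h2 : σ0 y ∉ A' := by
          rw [hσR y hy, hAiff i0 hi0, hAρ y]; exact hyA
        have h3 : ¬ H.Adj (σ0 x) (σ0 y) := fun h => h2 (hadjA' _ _ (hσF' x hx) h)
        simp [h1, h3]
    by_cases hx : x ∈ K
    · by_cases hy : y ∈ K
      · have h1 : ¬ G.Adj x y := mx_indep (kp_mx G univ) hx hy
        have h3 : ¬ H.Adj (σ0 x) (σ0 y) := mx_indep (kp_mx H univ) (hσF' x hx) (hσF' y hy)
        simp [h1, h3]
      · exact hmix x y hx hy
    · by_cases hy : y ∈ K
      · rw [H.adj_comm, G.adj_comm]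
        exact hmix y x hy hx
      · rw [hσR x hx, hσR y hy]
        have hx1 : ρ x ∉ K := fun h => hx ((hρ2 x).mp h)
        have hy1 : ρ y ∉ K := fun h => hy ((hρ2 y).mp h)
        have hx2 : ρ x ≠ i0 := fun h => hx1 (by rw [h]; exact hMK i0 hi0)
        have hy2 : ρ y ≠ i0 := fun h => hy1 (by rw [h]; exact hMK i0 hi0)
        rw [hH.adj i0 _ _ hx2 hy2]
        exact hρ3 x y hx hy
  -- totals
  have hw : ∑ x, wt G eG x = K.card := sum_wt_univ G eG
  have hw' : ∑ x, wt H eH x = K.card := by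
    rw [sum_wt_univ H eH]
    symm
    apply card_bij (fun x _ => π i0 x)
    · intro x hx
      exact (hKiff i0 hi0 x).mpr hx
    · intro x _ y _ h
      exact (π i0).injective h
    · intro y hy
      refine ⟨(π i0).symm y, ?_, by simp⟩
      rw [← hKiff i0 hi0, Equiv.apply_symm_apply]
      exact hy
  have hinv : ∀ (g : Γ) (c : Finset B → ℕ), UU (fun x => c (φ g x)) → UU c := fun g c h =>
    UU_inv (g : Equiv.Perm B) (φ g) (fun T b => mem_actF _ _ _) c h
  have hD : ∀ x, UU (del (wt G eG) x) → cnt t x = wt G eG x := by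
    intro x hx
    rw [← cnt_mx' G eG heG hrG x hx]
    exact cnt_sub (Km G univ) (NB G eG) x
  have hD' : ∀ x, UU (del (wt H eH) x) → cnt t' x = wt H eH x := by
    intro x hx
    rw [← cnt_mx' H eH heH hrH x hx, hkm]
    exact cnt_sub (Km G univ) (NB H eH) x
  obtain ⟨s, hs1, hs2⟩ := main_part φ UU (wt G eG) (wt H eH) t t' K.card (2 * Fintype.card B)
    hw hw' UU_mono hinv hD hD' hdeck
    (exists_S0 _ (UU_wt G eG heG hrG)) (exists_S0 _ (UU_wt H eH heH hrH)) hneq
  have hB : Fintype.card B = A.card := Fintype.card_coe A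
  refine ⟨s, ?_, ?_⟩
  · rw [hB] at hs1
    refine le_trans ?_ hs1
    have h1 : (K.image (fun u => univ.filter (fun y => G.Adj u y))) ⊆
        (univ.filter (fun x : Finset B => wt G eG x ≠ 0)).image (fun T => T.image eG) := by
      intro z hz
      obtain ⟨u, hu, rfl⟩ := mem_image.mp hz
      refine mem_image.mpr ⟨NB G eG u, mem_filter.mpr ⟨mem_univ _, ?_⟩, ?_⟩
      · exact wt_ne G eG u hu
      · ext y
        rw [mem_image]
        constructor
        · rintro ⟨b, hb, rfl⟩
          exact mem_filter.mpr ⟨mem_univ _, (mem_NB G eG u b).mp hb⟩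
        · intro hy
          have h2 := (mem_filter.mp hy).2
          exact ⟨⟨y, hadjA u y hu h2⟩, (mem_NB G eG u _).mpr h2, rfl⟩
    exact (card_le_card h1).trans card_image_le
  · refine hs2.trans ?_
    have h1 : Fintype.card Γ ≤ A.card.factorial := by
      calc Fintype.card Γ ≤ Fintype.card (Equiv.Perm B) :=
            Fintype.card_le_of_injective _ Subtype.val_injective
        _ = A.card.factorial := by rw [Fintype.card_perm, hB]
    have h2 : (Fintype.card Γ : ℝ) ≤ (A.card.factorial : ℝ) := by exact_mod_cast h1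
    linarith

end Pool.Agent.TH87.RVD
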