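import Pool.Agent.TH87.RVC.Main
import Pool.Agent.TH87.RVD.Deck

set_option autoImplicit false
set_option linter.unusedSectionVars false

/-!
Graphs with an independent set whose vertices have many distinct neighbourhoods.
-/

namespace Pool.Agent.TH87.RVD

open Finset Classical
open Pool.Agent.H234RC (Hypo NonIso Reconstructible exists_hypo)
open Pool.Agent.TH87.RVC (s_bound compl_hypo)

variable {V : Type} [Fintype V]

theorem bound_aux {G H : SimpleGraph V} {π : V → Equiv.Perm V} (hH : Hypo G H π)
    (hN : NonIso G H) (A : Finset V) (hA : ∀ x y, x ∉ A → y ∉ A → ¬ G.Adj x y)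
    (hb : 3 * A.card + 4 ≤ (univ.filter (fun v => v ∉ A)).card) :
    ∃ s : ℕ, ((univ.filter (fun v => v ∉ A)).image
        (fun u => univ.filter (fun y => G.Adj u y))).card ≤ 3 * A.card + 1 + s ∧
      (3 / 2 : ℝ) ^ s ≤ 2 * (A.card.factorial : ℝ) := by
  set B := univ.filter (fun v => v ∉ A) with hB
  have hn : A.card + B.card = Fintype.card V := by
    have h := card_filter_add_card_filter_not (s := (univ : Finset V)) (fun v => v ∈ A)
    have h1 : univ.filter (fun v => v ∈ A) = A := by ext; simp
    rw [h1, card_univ] at h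
    exact h
  have hNB : nb G univ B ⊆ A := by
    intro y hy
    obtain ⟨_, x, hx, hxy⟩ := (mem_nb _ _ _ _).mp hy
    by_contra h
    exact hA x y (mem_filter.mp hx).2 h hxy
  have hval : (B.card : ℤ) - 2 * A.card ≤ mu G univ := by
    have h1 := val_le_mu G univ B (subset_univ _)
    have h2 := card_le_card hNB
    unfold val at h1
    omega
  have h4 : 4 ≤ mu G univ := by omega
  obtain ⟨s, hs1, hs2⟩ := graph_bound2 hH hN h4
  have hmu : mu G univ = ((Kp G univ).card : ℤ) - 2 * (nb G univ (Kp G univ)).card := rfl
  have hdis : Disjoint (Kp G univ) (nb G univ (Kp G univ)) := by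
    rw [disjoint_left]
    intro x hx
    exact kp_not_nb G hx
  have h5 : (Kp G univ).card + (nb G univ (Kp G univ)).card ≤ Fintype.card V := by
    rw [← card_union_of_disjoint hdis]
    exact card_le_univ _
  have hNA : (nb G univ (Kp G univ)).card ≤ A.card := by omega
  have h6 : (B \ Kp G univ).card + (Kp G univ).card ≤ Fintype.card V := by
    rw [← card_union_of_disjoint sdiff_disjoint]
    exact card_le_univ _
  refine ⟨s, ?_, hs2.trans ?_⟩
  · have h7 : B.image (fun u => univ.filter (fun y => G.Adj u y)) ⊆
        (B \ Kp G univ).image (fun u => univ.filter (fun y => G.Adj u y)) ∪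
        (Kp G univ).image (fun u => univ.filter (fun y => G.Adj u y)) := by
      rw [← image_union]
      apply image_subset_image
      intro x hx
      rw [mem_union, mem_sdiff]
      by_cases h : x ∈ Kp G univ
      · exact Or.inr h
      · exact Or.inl ⟨hx, h⟩
    have h8 := (card_le_card h7).trans (card_union_le _ _)
    have h9 : ((B \ Kp G univ).image (fun u => univ.filter (fun y => G.Adj u y))).card ≤
        (B \ Kp G univ).card := card_image_le
    omega
  · have h7 : ((nb G univ (Kp G univ)).card.factorial : ℝ) ≤ (A.card.factorial : ℝ) := by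
      exact_mod_cast Nat.factorial_le hNA
    linarith

theorem bound {G H : SimpleGraph V} {π : V → Equiv.Perm V} (hH : Hypo G H π)
    (hN : NonIso G H) (A : Finset V) (hA : ∀ x y, x ∉ A → y ∉ A → ¬ G.Adj x y) :
    (((univ.filter (fun v => v ∉ A)).image
        (fun u => univ.filter (fun y => G.Adj u y))).card : ℝ) ≤
      5 / 2 * (A.card * Real.log A.card) + 3 * A.card + 3 := by
  have hlog : 0 ≤ (A.card : ℝ) * Real.log A.card := by
    rcases Nat.eq_zero_or_pos A.card with h | h
    · rw [h]; simp
    · exact mul_nonneg (Nat.cast_nonneg _) (Real.log_nonneg (by exact_mod_cast h))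
  by_cases hb : 3 * A.card + 4 ≤ (univ.filter (fun v => v ∉ A)).card
  · obtain ⟨s, hs1, hs2⟩ := bound_aux hH hN A hA hb
    have h1 := s_bound _ _ hs2
    have h2 : (((univ.filter (fun v => v ∉ A)).image
        (fun u => univ.filter (fun y => G.Adj u y))).card : ℝ) ≤ 3 * A.card + 1 + s := by
      exact_mod_cast hs1
    linarith
  · have h1 : ((univ.filter (fun v => v ∉ A)).image
        (fun u => univ.filter (fun y => G.Adj u y))).card ≤ 3 * A.card + 3 := by
      have : ((univ.filter (fun v => v ∉ A)).image
        (fun u => univ.filter (fun y => G.Adj u y))).card ≤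
        (univ.filter (fun v => v ∉ A)).card := card_image_le
      omega
    have h2 : (((univ.filter (fun v => v ∉ A)).image
        (fun u => univ.filter (fun y => G.Adj u y))).card : ℝ) ≤ 3 * A.card + 3 := by
      exact_mod_cast h1
    linarith

theorem main (G : SimpleGraph V) (A : Finset V) (hA : ∀ x y, x ∉ A → y ∉ A → ¬ G.Adj x y)
    (hm : 5 / 2 * (A.card * Real.log A.card) + 3 * A.card + 3 <
      (((univ.filter (fun v => v ∉ A)).image
        (fun u => univ.filter (fun y => G.Adj u y))).card : ℝ)) :
    Reconstructible G ∧ Reconstructible Gᶜ := by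
  constructor
  · by_contra hcon
    obtain ⟨H, π, hH, hN⟩ := exists_hypo G hcon
    exact absurd hm (not_lt.mpr (bound hH hN A hA))
  · by_contra hcon
    obtain ⟨H, π, hH, hN⟩ := exists_hypo Gᶜ hcon
    obtain ⟨hH', hN'⟩ := compl_hypo hH hN
    exact absurd hm (not_lt.mpr (bound hH' hN' A hA))

end Pool.Agent.TH87.RVD
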